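import Pool.Agent.T2H42.PJ.All

/-!
# The Liang–So–Zhang inequality for positive semidefinite matrices of low rank, in the entropy range

`(per A)^m (per B)^n ≤ per(A ⊗ B)` for positive semidefinite `A` (`n × n`, rank `≤ r`) and `B` (`m × m`, rank `≤ s`)
whenever `h(r/n) + h(s/m) ≤ 1`, where `h(x) = (1 + x) log (1 + x) - x log x`.
-/

set_option autoImplicit false

open scoped Nat ComplexOrder

namespace Pool.Agent.Results.MP_2dd521_co.EntropyRange

open Pool.Agent.T2H42.PJ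

/-- `e x^x (x) ≤ (x+1)^(x+1)` -/
theorem exp_step (x : ℕ) (hx : 1 ≤ x) :
    Real.exp 1 * ((x : ℝ) ^ x * x) ≤ ((x + 1 : ℕ) : ℝ) ^ (x + 1) := by
  have hx' : (0 : ℝ) < x := by exact_mod_cast hx
  have h1 : 1 - (((x : ℝ) + 1) / x)⁻¹ ≤ Real.log (((x : ℝ) + 1) / x) :=
    Real.one_sub_inv_le_log_of_pos (by positivity)
  have h2 : (1 : ℝ) ≤ ((x : ℝ) + 1) * Real.log (((x : ℝ) + 1) / x) := by
    have h3 : ((x : ℝ) + 1) * (1 - (((x : ℝ) + 1) / x)⁻¹) = 1 := by
      field_simp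
      ring
    calc (1 : ℝ) = ((x : ℝ) + 1) * (1 - (((x : ℝ) + 1) / x)⁻¹) := h3.symm
      _ ≤ _ := mul_le_mul_of_nonneg_left h1 (by positivity)
  have h4 : Real.exp 1 ≤ (((x : ℝ) + 1) / x) ^ (x + 1) := by
    calc Real.exp 1 ≤ Real.exp (((x : ℝ) + 1) * Real.log (((x : ℝ) + 1) / x)) := Real.exp_le_exp.2 h2
      _ = _ := by
        rw [mul_comm, Real.exp_mul, Real.exp_log (by positivity)]
        exact_mod_cast Real.rpow_natCast (((x : ℝ) + 1) / x) (x + 1)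
  calc Real.exp 1 * ((x : ℝ) ^ x * x) ≤ (((x : ℝ) + 1) / x) ^ (x + 1) * ((x : ℝ) ^ x * x) := by gcongr
    _ = ((x + 1 : ℕ) : ℝ) ^ (x + 1) := by
      rw [← pow_succ, div_pow]
      push_cast
      field_simp

/-- `r (r+1) ⋯ (r+n-1) ≤ (r+n)^(r+n) / (r^r e^n)` -/
theorem asc_le (r n : ℕ) (hr : 1 ≤ r) :
    (r.ascFactorial n : ℝ) * ((r : ℝ) ^ r * Real.exp n) ≤ ((r + n : ℕ) : ℝ) ^ (r + n) := by
  induction n with
  | zero => simp
  | succ n ih =>
    have hs := exp_step (r + n) (by omega)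
    rw [Nat.ascFactorial_succ]
    have he : Real.exp ((n + 1 : ℕ) : ℝ) = Real.exp n * Real.exp 1 := by
      push_cast
      rw [Real.exp_add]
    rw [he]
    push_cast at ih hs ⊢
    calc ((r : ℝ) + n) * (r.ascFactorial n) * ((r : ℝ) ^ r * (Real.exp n * Real.exp 1))
        = (Real.exp 1 * ((r : ℝ) + n)) * ((r.ascFactorial n : ℝ) * ((r : ℝ) ^ r * Real.exp n)) := by ring
      _ ≤ (Real.exp 1 * ((r : ℝ) + n)) * (((r : ℝ) + n) ^ (r + n)) := by gcongr
      _ = Real.exp 1 * (((r : ℝ) + n) ^ (r + n) * (r + n)) := by ring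
      _ ≤ _ := by
        have : r + (n + 1) = r + n + 1 := by omega
        rw [this]
        convert hs using 2
        ring

/-- the arithmetic of the entropy range -/
theorem arith (n m r s : ℕ) (hn : 1 ≤ n) (hm : 1 ≤ m) (hr : 1 ≤ r) (hs : 1 ≤ s)
    (h : (((n + r : ℕ) : ℝ) ^ (n + r)) ^ m * (((m + s : ℕ) : ℝ) ^ (m + s)) ^ n ≤
      Real.exp (n * m) * (((n : ℝ) ^ n * (r : ℝ) ^ r) ^ m * ((m : ℝ) ^ m * (s : ℝ) ^ s) ^ n)) :
    ((n + r - 1)! : ℝ) ^ m * ((m + s - 1)! : ℝ) ^ n * ((n * m)! : ℝ) ≤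
      ((n * m + r - 1)! : ℝ) * ((r - 1)! : ℝ) ^ (m - 1) * (((n * m + s - 1)! : ℝ) * ((s - 1)! : ℝ) ^ (n - 1)) := by
  have hn' : (0 : ℝ) < n := by exact_mod_cast hn
  have hm' : (0 : ℝ) < m := by exact_mod_cast hm
  have hr' : (0 : ℝ) < r := by exact_mod_cast hr
  have hs' : (0 : ℝ) < s := by exact_mod_cast hs
  have h1 := asc_le r n hr
  have h2 := asc_le s m hs
  have h3 := UNI.fact_ge (n * m)
  have h4 : ((r.ascFactorial n : ℝ)) ^ m * ((s.ascFactorial m : ℝ)) ^ n ≤ ((n * m)! : ℝ) := by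
    refine le_trans ?_ h3
    have hK : (0 : ℝ) < ((r : ℝ) ^ r * Real.exp n) ^ m * ((s : ℝ) ^ s * Real.exp m) ^ n := by positivity
    refine le_of_mul_le_mul_right ?_ hK
    calc ((r.ascFactorial n : ℝ)) ^ m * ((s.ascFactorial m : ℝ)) ^ n *
          (((r : ℝ) ^ r * Real.exp n) ^ m * ((s : ℝ) ^ s * Real.exp m) ^ n)
        = ((r.ascFactorial n : ℝ) * ((r : ℝ) ^ r * Real.exp n)) ^ m *
          ((s.ascFactorial m : ℝ) * ((s : ℝ) ^ s * Real.exp m)) ^ n := by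
          rw [mul_pow (r.ascFactorial n : ℝ), mul_pow (s.ascFactorial m : ℝ)]; ring
      _ ≤ (((r + n : ℕ) : ℝ) ^ (r + n)) ^ m * (((s + m : ℕ) : ℝ) ^ (s + m)) ^ n := by gcongr
      _ = (((n + r : ℕ) : ℝ) ^ (n + r)) ^ m * (((m + s : ℕ) : ℝ) ^ (m + s)) ^ n := by
          rw [add_comm r n, add_comm s m]
      _ ≤ Real.exp (n * m) * (((n : ℝ) ^ n * (r : ℝ) ^ r) ^ m * ((m : ℝ) ^ m * (s : ℝ) ^ s) ^ n) := h
      _ = _ := by
          have e1 : Real.exp (n * m) = Real.exp 1 ^ (n * m) := by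
            rw [← Real.exp_nat_mul]; push_cast; ring_nf
          have e2 : Real.exp n = Real.exp 1 ^ n := by rw [← Real.exp_nat_mul]; ring_nf
          have e3 : Real.exp m = Real.exp 1 ^ m := by rw [← Real.exp_nat_mul]; ring_nf
          rw [e1, e2, e3]
          push_cast
          rw [div_pow, mul_pow, mul_pow, mul_pow, mul_pow, mul_pow, ← pow_mul, ← pow_mul, ← pow_mul, ← pow_mul,
            mul_comm m n]
          have he : Real.exp 1 ^ (n * m) ≠ 0 := (pow_pos (Real.exp_pos 1) _).ne'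
          field_simp
          try ring
  rw [UNI.asc_split r n hr, UNI.asc_split s m hs, UNI.asc_split r (n * m) hr, UNI.asc_split s (n * m) hs]
  have h5 : ((n * m)! : ℝ) ≤ (r.ascFactorial (n * m) : ℝ) := by exact_mod_cast UNI.fact_le_asc r (n * m) hr
  have h6 : ((n * m)! : ℝ) ≤ (s.ascFactorial (n * m) : ℝ) := by exact_mod_cast UNI.fact_le_asc s (n * m) hs
  have hm1 : ((r - 1)! : ℝ) ^ m = ((r - 1)! : ℝ) * ((r - 1)! : ℝ) ^ (m - 1) := by
    rw [← pow_succ', Nat.sub_add_cancel hm]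
  have hn1 : ((s - 1)! : ℝ) ^ n = ((s - 1)! : ℝ) * ((s - 1)! : ℝ) ^ (n - 1) := by
    rw [← pow_succ', Nat.sub_add_cancel hn]
  push_cast
  calc (((r - 1)! : ℝ) * (r.ascFactorial n : ℝ)) ^ m * (((s - 1)! : ℝ) * (s.ascFactorial m : ℝ)) ^ n *
        ((n * m)! : ℝ)
      = (((r - 1)! : ℝ) ^ m * ((s - 1)! : ℝ) ^ n) *
        (((r.ascFactorial n : ℝ) ^ m * (s.ascFactorial m : ℝ) ^ n) * ((n * m)! : ℝ)) := by
        rw [mul_pow, mul_pow]; ring
    _ ≤ (((r - 1)! : ℝ) ^ m * ((s - 1)! : ℝ) ^ n) * (((n * m)! : ℝ) * ((n * m)! : ℝ)) := by gcongr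
    _ ≤ (((r - 1)! : ℝ) ^ m * ((s - 1)! : ℝ) ^ n) *
        ((r.ascFactorial (n * m) : ℝ) * (s.ascFactorial (n * m) : ℝ)) := by gcongr
    _ = _ := by rw [hm1, hn1]; ring

/-- the inequality in the entropy range, with integer bounds `r`, `s` for the ranks -/
theorem main (n m r s : ℕ) (A : Matrix (Fin n) (Fin n) ℂ) (B : Matrix (Fin m) (Fin m) ℂ)
    (hA : A.PosSemidef) (hB : B.PosSemidef) (hn : 1 ≤ n) (hm : 1 ≤ m) (hr : 1 ≤ r) (hs : 1 ≤ s)
    (hrA : A.rank ≤ r) (hrB : B.rank ≤ s)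
    (h : (((n + r : ℕ) : ℝ) ^ (n + r)) ^ m * (((m + s : ℕ) : ℝ) ^ (m + s)) ^ n ≤
      Real.exp (n * m) * (((n : ℝ) ^ n * (r : ℝ) ^ r) ^ m * ((m : ℝ) ^ m * (s : ℝ) ^ s) ^ n)) :
    A.permanent ^ m * B.permanent ^ n ≤ (Matrix.kronecker A B).permanent := by
  obtain ⟨⟨h1, h2, h3, h4, h5⟩, H⟩ := tGEN n m r s A B hn hm hr hs hA hB hrA hrB
  have hu := arith n m r s hn hm hr hs h
  have hY : (0 : ℝ) < ((n + r - 1)! : ℝ) ^ m * ((m + s - 1)! : ℝ) ^ n * ((n * m)! : ℝ) := by positivity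
  have hPQ : (0 : ℝ) ≤ A.permanent.re ^ m * B.permanent.re ^ n := mul_nonneg (pow_nonneg h2 _) (pow_nonneg h4 _)
  have K : 1 * (A.permanent.re ^ m * B.permanent.re ^ n) ≤ 1 * (Matrix.kronecker A B).permanent.re := by
    rw [one_mul, one_mul]
    refine le_of_mul_le_mul_left ?_ hY
    exact (mul_le_mul_of_nonneg_right hu hPQ).trans H
  have := FIN.to_complex m n _ _ h1 h3 h5 K
  push_cast at this
  simpa using this

/-- Let `h(x) = (1 + x) log (1 + x) - x log x`. Let `A` (`n × n`) and `B` (`m × m`) be complex positive semidefinite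
matrices, `n, m ≥ 1`, and `r, s ≥ 1` integers with `rank A ≤ r`, `rank B ≤ s` and `h(r/n) + h(s/m) ≤ 1`. Then
`(per A)^m (per B)^n ≤ per(A ⊗ B)`. -/
theorem result (n m r s : ℕ) (A : Matrix (Fin n) (Fin n) ℂ) (B : Matrix (Fin m) (Fin m) ℂ)
    (hA : A.PosSemidef) (hB : B.PosSemidef) (hn : 1 ≤ n) (hm : 1 ≤ m) (hr : 1 ≤ r) (hs : 1 ≤ s)
    (hrA : A.rank ≤ r) (hrB : B.rank ≤ s)
    (h : ((1 + (r : ℝ) / n) * Real.log (1 + (r : ℝ) / n) - (r : ℝ) / n * Real.log ((r : ℝ) / n)) +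
      ((1 + (s : ℝ) / m) * Real.log (1 + (s : ℝ) / m) - (s : ℝ) / m * Real.log ((s : ℝ) / m)) ≤ 1) :
    A.permanent ^ m * B.permanent ^ n ≤ (Matrix.kronecker A B).permanent := by
  refine main n m r s A B hA hB hn hm hr hs hrA hrB ?_
  have hn' : (0 : ℝ) < n := by exact_mod_cast hn
  have hm' : (0 : ℝ) < m := by exact_mod_cast hm
  have hr' : (0 : ℝ) < r := by exact_mod_cast hr
  have hs' : (0 : ℝ) < s := by exact_mod_cast hs
  have e1 : Real.log (1 + (r : ℝ) / n) = Real.log ((n : ℝ) + r) - Real.log n := by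
    rw [← Real.log_div (by positivity) (by positivity)]
    congr 1
    field_simp
  have e2 : Real.log (1 + (s : ℝ) / m) = Real.log ((m : ℝ) + s) - Real.log m := by
    rw [← Real.log_div (by positivity) (by positivity)]
    congr 1
    field_simp
  rw [e1, e2, Real.log_div hr'.ne' hn'.ne', Real.log_div hs'.ne' hm'.ne'] at h
  have h' : (m : ℝ) * (((n : ℝ) + r) * Real.log ((n : ℝ) + r) - n * Real.log n - r * Real.log r) +
      n * (((m : ℝ) + s) * Real.log ((m : ℝ) + s) - m * Real.log m - s * Real.log s) ≤ n * m := by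
    have := mul_le_mul_of_nonneg_left h (mul_pos hn' hm').le
    rw [mul_one] at this
    refine le_trans (le_of_eq ?_) this
    field_simp
    ring
  have L : Real.log ((((n + r : ℕ) : ℝ) ^ (n + r)) ^ m * (((m + s : ℕ) : ℝ) ^ (m + s)) ^ n) ≤
      Real.log (Real.exp (n * m) * (((n : ℝ) ^ n * (r : ℝ) ^ r) ^ m * ((m : ℝ) ^ m * (s : ℝ) ^ s) ^ n)) := by
    push_cast
    rw [Real.log_mul (by positivity) (by positivity), Real.log_mul (by positivity) (by positivity),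
      Real.log_mul (by positivity) (by positivity), Real.log_pow, Real.log_pow, Real.log_pow, Real.log_pow,
      Real.log_pow, Real.log_pow, Real.log_mul (by positivity) (by positivity),
      Real.log_mul (by positivity) (by positivity), Real.log_pow, Real.log_pow, Real.log_pow, Real.log_pow,
      Real.log_exp]
    push_cast
    linarith
  exact (Real.log_le_log_iff (by positivity) (by positivity)).1 L

end Pool.Agent.Results.MP_2dd521_co.EntropyRange
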